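import Pool.Agent.H5.DPG.Stmts

/-!
Board `dpg`, row BRC: completeness of `bru`.
-/

set_option autoImplicit false

namespace Pool.DPG

open Pool.PG

theorem brc_getD (n : ℕ) (f : ℕ → Bool) (v : ℕ) (h : (msk n f).getD v false = true) :
    v < n ∧ f v = true := by
  by_cases hv : v < n
  · refine ⟨hv, ?_⟩
    simpa [msk, List.getD, hv] using h
  · exfalso
    simp [msk, List.getD, hv] at h

theorem brc_ne (n : ℕ) (f : ℕ → Bool) (h : 0 < n) : msk n f ≠ [] := by
  intro h0
  have h1 : (msk n f).length = n := by simp [msk]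
  rw [h0] at h1
  simp at h1
  omega

theorem brc_fold (g : Game) (l : List (List Bool)) : ∀ tb : List (List Bool × List Bool),
    ∃ r, l.foldl (fun tb Z => tb ++ [(Z, ent g tb Z)]) tb = tb ++ r ∧ r.map Prod.fst = l := by
  induction l with
  | nil => exact fun tb => ⟨[], by simp⟩
  | cons Z l ih =>
    intro tb
    obtain ⟨r, h1, h2⟩ := ih (tb ++ [(Z, ent g tb Z)])
    refine ⟨(Z, ent g tb Z) :: r, ?_, ?_⟩
    · rw [List.foldl_cons, h1]
      simp
    · simp [h2]

theorem brc_keys (g : Game) (l : List (List Bool)) : (tab g l).map Prod.fst = l := by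
  obtain ⟨r, h1, h2⟩ := brc_fold g l []
  unfold tab
  rw [h1]
  simpa using h2

theorem brc_tab (g : Game) (a b : List (List Bool)) (Z : List Bool) :
    ∃ r, tab g (a ++ Z :: b) = tab g a ++ (Z, ent g (tab g a) Z) :: r := by
  obtain ⟨r, h1, -⟩ := brc_fold g b (tab g a ++ [(Z, ent g (tab g a) Z)])
  refine ⟨r, ?_⟩
  have h2 : tab g (a ++ Z :: b) =
      b.foldl (fun tb Z => tb ++ [(Z, ent g tb Z)]) (tab g a ++ [(Z, ent g (tab g a) Z)]) := by
    unfold tab
    rw [List.foldl_append, List.foldl_cons]
  rw [h2, h1]
  simp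

theorem brc_lk (t1 t2 : List (List Bool × List Bool)) (Z e : List Bool)
    (h : Z ∉ t1.map Prod.fst) : lk (t1 ++ (Z, e) :: t2) Z = e := by
  have h1 : t1.filter (fun q => decide (q.1 = Z)) = [] := by
    rw [List.filter_eq_nil_iff]
    intro q hq hZ
    apply h
    rw [List.mem_map]
    exact ⟨q, hq, by simpa using hZ⟩
  unfold lk
  rw [List.filter_append, h1, List.nil_append, List.filter_cons]
  simp

theorem brc_thm (hSBS : SBSStmt) (hATL : ATLStmt) (hFSB : FSBStmt) (hDSB : DSBStmt)
    (hMPR : MPRStmt) : BRCStmt := by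
  obtain ⟨hF1, hF2, hF3, -⟩ := hFSB
  intro c g X hg hX hc
  obtain ⟨-, hS⟩ := hSBS
  obtain ⟨hall, hpre⟩ := hS ((g.length + 2) ^ c) X hc
  generalize hl : sbs ((g.length + 2) ^ c) X = l at hall hpre
  -- the induction
  have key : ∀ n : ℕ, ∀ Z : List Bool, (fs g Z).card < n → Sub g Z →
      ∀ a b : List (List Bool), l = a ++ b → Z ∈ a → lk (tab g a) Z ≠ [] := by
    intro n
    induction n with
    | zero => exact fun Z h => absurd h (Nat.not_lt_zero _)
    | succ n ih =>
      intro Z hZn hZ a b hab hZa
      obtain ⟨p, q, hpq, hZp⟩ := List.eq_append_cons_of_mem hZa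
      obtain ⟨r, hr⟩ := brc_tab g p q Z
      rw [hpq, hr, brc_lk _ _ _ _ (by rw [brc_keys]; exact hZp)]
      have hlp : l = p ++ Z :: (q ++ b) := by
        rw [hab, hpq]
        simp
      -- complements of nonempty attractors
      have sub : ∀ (i : Bool) (T : List Bool), (fs g Z ∩ fs g T).Nonempty →
          lk (tab g p) (dif g Z (att i g Z T)) ≠ [] := by
        intro i T hT
        obtain ⟨hd1, -⟩ := hDSB g i Z T hZ
        obtain ⟨hA1, hA⟩ := hATL g i Z T hZ.1
        have hsub : fs g (dif g Z (att i g Z T)) = fs g Z \ fs g (att i g Z T) := hF2 _ _ _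
        obtain ⟨v, hv⟩ := hT
        have hvA : v ∈ fs g (att i g Z T) := hA.1 hv
        have hvZ : v ∈ fs g Z := (Finset.mem_inter.1 hv).1
        have hss : fs g (dif g Z (att i g Z T)) ⊂ fs g Z := by
          rw [hsub, Finset.ssubset_iff_of_subset Finset.sdiff_subset]
          exact ⟨v, hvZ, fun h => (Finset.mem_sdiff.1 h).2 hvA⟩
        have hcard := Finset.card_lt_card hss
        have hne : dif g Z (att i g Z T) ≠ Z := by
          intro h
          rw [h] at hss
          exact hss.ne rfl
        have hmem : dif g Z (att i g Z T) ∈ p := by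
          refine hpre p (q ++ b) Z _ hlp ?_ ?_ hne
          · rw [hd1.1, hX.1]
          · intro w hw
            have := (brc_getD _ _ _ hw).2
            simp only [Bool.and_eq_true] at this
            exact this.1
        exact ih _ (by omega) hd1 p (Z :: (q ++ b)) hlp hmem
      unfold ent
      split_ifs with h0
      · exact brc_ne _ _ hg
      · have hne : (fs g Z).Nonempty := by
          rw [← (hF3 g Z hZ.1).2]
          simpa using h0
        obtain ⟨-, hm2, hm3, -⟩ := hMPR g Z hne
        have h1 : lk (tab g p) (dif g Z (nA g Z)) ≠ [] := by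
          unfold nA
          apply sub
          obtain ⟨v, hv⟩ := hm3
          refine ⟨v, Finset.mem_inter.2 ⟨?_, hv⟩⟩
          rw [hm2] at hv
          exact (Finset.mem_filter.1 hv).1
        unfold zs
        rw [if_neg h1]
        split_ifs with h2
        · exact brc_ne _ _ hg
        · have h3 : lk (tab g p) (dif g Z (att (!pl g Z) g Z
              (bad g Z (lk (tab g p) (dif g Z (nA g Z)))))) ≠ [] := by
            apply sub
            have hbl : (bad g Z (lk (tab g p) (dif g Z (nA g Z)))).length = g.length :=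
              (hF1 g _).1
            have hbn : (fs g (bad g Z (lk (tab g p) (dif g Z (nA g Z))))).Nonempty := by
              rw [← (hF3 g _ hbl).2]
              simpa using h2
            obtain ⟨v, hv⟩ := hbn
            refine ⟨v, Finset.mem_inter.2 ⟨?_, hv⟩⟩
            have h4 : (bad g Z (lk (tab g p) (dif g Z (nA g Z)))).getD v false = true :=
              (Finset.mem_filter.1 hv).2
            have h5 := (brc_getD _ _ _ h4).2
            simp only [Bool.and_eq_true] at h5
            have h6 := (brc_getD _ _ _ h5.1).2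
            simp only [Bool.and_eq_true] at h6
            exact Finset.mem_filter.2 ⟨(Finset.mem_filter.1 hv).1, h6.1⟩
          unfold jn
          rw [if_neg h3]
          exact brc_ne _ _ hg
  unfold bru
  rw [hl]
  refine key ((fs g X).card + 1) X (Nat.lt_succ_self _) hX l [] (by simp) ?_
  exact hall X rfl fun v h => h

end Pool.DPG
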