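import Pool.Agent.H5.DPG.Stmts

/-!
Board `dpg`, row LV1: the first level.
-/

set_option autoImplicit false

namespace Pool.DPG

open Pool.PG

theorem lv1_thm (hLVC : LVCStmt) (hTRP : TRPStmt) (hBRC : BRCStmt) (hBRS : BRSStmt)
    (hFSB : FSBStmt) : LV1Stmt := by
  obtain ⟨-, hF2, hF3, -⟩ := hFSB
  intro c g K X q hg hK hD hc hX hq
  refine hLVC c (bru c) g K (fun F => (F.filter fun v => own g v = q).card < K) hg hK hD hc
    (hBRS c g) ?_ ?_ (g.length + 1) X hX hq ?_
  · intro F F' hF h
    exact lt_of_le_of_lt (Finset.card_le_card (Finset.filter_subset_filter _ hF)) h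
  · intro X B' j _ hP hS hB hdm hcl hk
    refine hBRC c g (dif g X B') hg hS ?_
    have h1 : (fs g X \ fs g B').card < 8 * K := hTRP g K X j q (fs g B') hK hD hdm hcl hk hP
    rw [(hF3 g _ hS.1).1, hF2]
    refine le_trans (Nat.pow_le_pow_right (by norm_num) ?_) hc
    omega
  · rw [(hF3 g _ hX.1).1]
    refine Nat.lt_succ_of_le ?_
    calc (fs g X).card ≤ (Finset.range g.length).card :=
          Finset.card_le_card (Finset.filter_subset _ _)
      _ = g.length := Finset.card_range _

end Pool.DPG
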