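import Pool.Agent.H5.DPG.Stmts

/-!
Board `dpg`, row LV2: the second level solves all subgames.
-/

set_option autoImplicit false

namespace Pool.DPG

open Pool.PG

theorem lv2_thm (hLVC : LVCStmt) (hLV1 : LV1Stmt) (hBIG : BIGStmt) (hRCS : RCSStmt)
    (hBRS : BRSStmt) (hFSB : FSBStmt) : LV2Stmt := by
  obtain ⟨hF1, hF2, hF3, -⟩ := hFSB
  intro c g K hg hK hD hc hV
  have hfs : fs g (msk g.length fun _ => true) = Finset.range g.length := by
    rw [(hF1 g fun _ => true).2]
    simp
  have hlen : (msk g.length fun _ => true).length = g.length := (hF1 g fun _ => true).1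
  have hsub : Sub g (msk g.length fun _ => true) := by
    refine ⟨hlen, ?_⟩
    rw [hfs]
    intro v hv
    rw [Finset.mem_range] at hv
    obtain ⟨h1, h2⟩ := hV v hv
    obtain ⟨w, hw⟩ := List.exists_mem_of_ne_nil _ h1
    exact ⟨w, Finset.mem_range.2 (h2 w hw), hw⟩
  refine hLVC c (lev c (bru c)) g K (fun _ => True) hg hK hD hc ?_ (fun _ _ _ _ => trivial) ?_
    (g.length + 1) _ hsub trivial ?_
  · exact hRCS c (bru c) g (hBRS c g) (g.length + 1)
  · intro X B' j _ _ hS hB hdm hcl hk
    refine hLV1 c g K (dif g X B') j hg hK hD hc hS ?_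
    have h1 := hBIG g K X j (fs g B') hK hD hB hcl hk
    have h2 : fo g (dif g X B') j = fo g X j \ fs g B' := by
      unfold fo
      rw [hF2]
      ext v
      simp only [Finset.mem_filter, Finset.mem_sdiff]
      tauto
    rw [h2]
    exact h1
  · rw [(hF3 g _ hlen).1, hfs, Finset.card_range]
    exact Nat.lt_succ_self _

end Pool.DPG
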